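import Mathlib
import Pool.Prelude.Def_F_c31e40fa
import Pool.Agent.H439.MC.Dyn3

/-!
# MP_c35c17_an: how well hyperbolic parameters approximate a random boundary parameter

Almost every external ray of the Multibrot set `M` of degree `d ≥ 2` lands; let `c(θ)` be the
landing point of the ray of angle `θ`. So `c(θ)`, `θ` uniform in `(0, 2π]`, is a random boundary
point of `M` (its law is the harmonic measure). We prove the central limit theorem for the
derivatives along the critical orbit of `f(z) = z ^ d + c(θ)`, and for the distance of `c(θ)` from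
the (hyperbolic) parameters for which the critical point is periodic of period at most `n`.
-/

set_option autoImplicit false

open Filter Topology Set Metric MeasureTheory N62a1eb23

namespace Pool.Agent.Results.MP_c35c17_an.DistanceToCentres

open Pool.Agent.H713R2 (IsExteriorMap)
open ProbabilityTheory (gaussianReal)

/-- The external ray of angle `θ` (in radians) lands at `c θ`, for almost every `θ`. -/
def Lands (ψ : ℂ → ℂ) (c : ℝ → ℂ) : Prop :=
  ∀ᵐ θ : ℝ, Tendsto (fun r : ℝ => ψ (r * Complex.exp (θ * Complex.I))) (𝓝[>] 1) (𝓝 (c θ))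

/-- The parameters `c` for which the critical point `0` of `z ^ d + c` is periodic of period at most
`n`; they have a superattracting cycle. -/
def Centres (d n : ℕ) : Set ℂ := {c | ∃ k : ℕ, 1 ≤ k ∧ k ≤ n ∧ (fun z : ℂ => z ^ d + c)^[k] 0 = 0}

/-- `(log |(f^n)'(c)| - n log d) / √n` for `f(z) = z ^ d + c`: the fluctuation of the derivative of the
`n`-th iterate at the critical value. -/
noncomputable def X (d n : ℕ) (c : ℂ) : ℝ :=
  (Real.log ‖deriv ((fun z : ℂ => z ^ d + c)^[n]) c‖ - n * Real.log d) / √n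

/-- `(log (1 / δ) - n log d) / √n` where `δ` is the distance of `c` from `Centres d n`. -/
noncomputable def Y (d n : ℕ) (c : ℂ) : ℝ :=
  (Real.log (1 / infDist c (Centres d n)) - n * Real.log d) / √n

/-- **Central limit theorem in the parameter plane.** Let `M` be the Multibrot set of degree `d ≥ 2`.
Its exterior map `ψ` exists and almost every ray lands, and there is a function `σ ≥ 0` on
`(0, 2π]`, square integrable and with positive integral, such that, for the landing points `c(θ)`,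
for every integrable `φ` and every bounded continuous `f : ℝ → ℝ`, as `n → ∞`:

(1) `∫ φ(θ) f (X_n (c(θ))) dθ → ∫ φ(θ) E f (σ(θ) x) dθ` with `x` standard normal;
(2) the same for `Y_n`; and
(3) `X_n (c(θ)) - Y_n (c(θ)) → 0` in measure. -/
theorem result (d : ℕ) (hd : 2 ≤ d) :
    (∃ ψ : ℂ → ℂ, IsExteriorMap (multibrotSet d) ψ) ∧
    ∃ σ : ℝ → ℝ, Measurable σ ∧ (∀ θ, 0 ≤ σ θ) ∧
      IntervalIntegrable (fun θ => σ θ ^ 2) volume 0 (2 * Real.pi) ∧
      0 < ∫ θ in (0 : ℝ)..2 * Real.pi, σ θ ∧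
      ∀ ψ : ℂ → ℂ, IsExteriorMap (multibrotSet d) ψ →
        (∃ c : ℝ → ℂ, Lands ψ c) ∧
        ∀ c : ℝ → ℂ, Lands ψ c →
          (∀ φ : ℝ → ℝ, IntervalIntegrable φ volume 0 (2 * Real.pi) →
            ∀ f : BoundedContinuousFunction ℝ ℝ,
            Tendsto (fun n : ℕ => ∫ θ in (0 : ℝ)..2 * Real.pi, φ θ * f (X d n (c θ))) atTop
              (𝓝 (∫ θ in (0 : ℝ)..2 * Real.pi, φ θ * ∫ x, f (σ θ * x) ∂(gaussianReal 0 1))) ∧
            Tendsto (fun n : ℕ => ∫ θ in (0 : ℝ)..2 * Real.pi, φ θ * f (Y d n (c θ))) atTop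
              (𝓝 (∫ θ in (0 : ℝ)..2 * Real.pi, φ θ * ∫ x, f (σ θ * x) ∂(gaussianReal 0 1)))) ∧
          Tendsto (fun n : ℕ => ∫ θ in (0 : ℝ)..2 * Real.pi, min 1 |Y d n (c θ) - X d n (c θ)|)
            atTop (𝓝 0) := by
  obtain ⟨β, hβ⟩ := Pool.Agent.H713R2.exists_beta (d := d) hd
  refine ⟨⟨_, Pool.Agent.H713R2.exteriorMap_of_beta hβ⟩, ?_⟩
  obtain ⟨σ, h1, h2, h3, h4, h5⟩ := Pool.Agent.H439.MC.clt_dyn_ext hd hβ
  refine ⟨σ, h1, h2, h3, h4, ?_⟩
  intro ψ hψ
  have eX : ∀ (c : ℝ → ℂ) n θ, X d n (c θ) = Pool.Agent.H439.MC.Xn d c n θ := by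
    intro c n θ
    unfold X Pool.Agent.H439.MC.Xn
    rw [Pool.Agent.H439.MC.deriv_fc_iter hd]
  have eY : ∀ (c : ℝ → ℂ) n θ, Y d n (c θ) = Pool.Agent.H439.MC.Yn d c n θ := fun c n θ => rfl
  refine ⟨Pool.Agent.H439.MC.exists_lands hd hβ hψ, ?_⟩
  intro c hc
  simp only [eX, eY]
  refine ⟨fun φ hφ f => h5 ψ hψ c hc φ hφ f, ?_⟩
  exact Pool.Agent.H439.MC.YX_close_ext hd hβ hψ hc

end Pool.Agent.Results.MP_c35c17_an.DistanceToCentres
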