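import Mathlib
import Pool.Prelude.Def_F_c31e40fa
import Pool.Graph.R_pool_sql_team_seeded_63374d34.Results.MP_fcb70f_an.PerfectCopies
import Pool.Agent.H206.HairG

/-!
# Most small copies of the Multibrot sets are hairy

Let `M` be the Multibrot set of degree `d ≥ 2` (the parameters `c` for which the orbit of `0` under
`f_c = z ^ d + c` is bounded) and `H ⊆ M` the set of the hyperbolic parameters (those with an
attracting cycle). Every superattracting parameter `c` of exact period `n` is the centre of a small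
copy of `M`; there are about `d ^ (n - 1)` of them.

**Theorem.** For most superattracting parameters `c` of exact period `n` (their proportion converges
to one), and for all of them close to a parameter with a positive Lyapunov exponent, there is a
scale `l` (explicit in terms of derivatives of `f ^ n (0)`), such that the small copy of `M`,
magnified by `1 / l`, is `ε`-close to `M`, so it stays away from the parameters outside of `M`; but
the hyperbolic parameters, magnified by `1 / l`, are `ε`-dense in the whole disc of radius `1 / ε`: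
every `κ₀` outside of `M`, or in the closure of `H`, is `ε`-close to a `κ` such that `c + l κ` is
hyperbolic, and even superattracting if `κ₀` is not in `M`. Only at the points `κ₀` of `M` which are
not in the closure of `H` (there is none if hyperbolicity is dense in `M`) this may fail.

So a disc of radius `ε |l|` near the small copy can be free of hyperbolic parameters only if density
of hyperbolicity fails in the corresponding place of `M` itself.
-/

set_option autoImplicit false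

open MeasureTheory Filter Metric Topology Set

namespace Pool.Agent.Results.MP_c35c17_an.HairyCopies

open N62a1eb23

/-- The polynomial `z ^ d + c`. -/
def f (d : ℕ) (c : ℂ) : ℂ → ℂ := fun z => z ^ d + c

/-- The superattracting parameters of exact period `n`: the critical point `0` of `z ^ d + c` is
periodic with least period `n`. -/
def centres (d n : ℕ) : Set ℂ := {c | Function.minimalPeriod (f d c) 0 = n}

/-- The critical orbit as a function of the parameter. -/
def crit (d n : ℕ) (c : ℂ) : ℂ := (f d c)^[n] 0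

/-- The parameters with attracting cycles. -/
def hyperbolic (d : ℕ) : Set ℂ := {c | ∃ m z, IsAttractingCycle (f d c) m z}

/-- The superattracting parameters, of any period. -/
def superattracting (d : ℕ) : Set ℂ := {c | ∃ m : ℕ, 0 < m ∧ crit d m c = 0}

/-- The scales: `l` for the parameters and `m` for the dynamics. They are explicit, and
`|l| = exp (- (χ d / (d - 1) ± ε) n)`, `|m| = exp (- (χ / (d - 1) ± ε) n)`. -/
def Scales (d n : ℕ) (c l m : ℂ) (χ ε : ℝ) : Prop :=
  l ≠ 0 ∧ m ≠ 0 ∧ m ^ (d - 1) * deriv ((f d c)^[n - 1]) c = 1 ∧ l * deriv (crit d n) c = m ∧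
    |-Real.log ‖l‖ / n - χ * d / (d - 1)| ≤ ε ∧ |-Real.log ‖m‖ / n - χ / (d - 1)| ≤ ε

/-- The small copy of the Multibrot set, magnified by `1 / l`: the parameters `κ` for which the
orbit of `0` under `f_(c + l κ) ^ n` stays in the disc of radius `3 |m|`. -/
def copy (d n : ℕ) (c l m : ℂ) : Set ℂ :=
  {κ | ‖κ‖ ≤ 3 ^ d ∧ ∀ j : ℕ, ‖(f d (c + l * κ))^[n * j] 0‖ ≤ 3 * ‖m‖}

/-- The small copy of centre `c` is hairy, up to `ε`: the copy is close to the Multibrot set, but the
hyperbolic parameters are everywhere around it. -/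
def Hairy (d : ℕ) (χ ε : ℝ) (n : ℕ) (c : ℂ) : Prop :=
  ∃ l m : ℂ, Scales d n c l m χ ε ∧
    -- the copy is `ε`-close to the Multibrot set
    copy d n c l m ⊆ thickening ε (multibrotSet d) ∧
    closure (hyperbolic d) ⊆ thickening ε {κ | κ ∈ copy d n c l m ∧ c + l * κ ∈ hyperbolic d} ∧
    -- superattracting parameters near all the points outside of the Multibrot set
    (∀ κ₀ : ℂ, ‖κ₀‖ ≤ 1 / ε → κ₀ ∉ multibrotSet d →
      ∃ κ : ℂ, ‖κ - κ₀‖ < ε ∧ c + l * κ ∈ superattracting d) ∧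
    -- hyperbolic parameters near all the points which are not in the part of the Multibrot set
    -- where density of hyperbolicity fails
    ∀ κ₀ : ℂ, ‖κ₀‖ ≤ 1 / ε → κ₀ ∉ multibrotSet d \ closure (hyperbolic d) →
      ∃ κ : ℂ, ‖κ - κ₀‖ < ε ∧ c + l * κ ∈ hyperbolic d

open Pool.Agent.N772.TC Pool.Agent.N772.PC Pool.Agent.H206.Hair
open Pool.Agent.Results.MP_fcb70f_an (PerfectCopies.consequences PerfectCopies.log_near')

/-- superattracting parameters are hyperbolic -/
theorem superattracting_sub {d : ℕ} (hd : 2 ≤ d) : superattracting d ⊆ hyperbolic d := by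
  rintro c ⟨m, hm, h⟩
  refine ⟨m, 0, hm, h, Pool.Agent.N772.PC.diff_fc d m c 0, ?_⟩
  have h1 : deriv ((f d c)^[m]) 0 = 0 := by
    obtain ⟨k, rfl⟩ : ∃ k, m = k + 1 := ⟨m - 1, by omega⟩
    have h2 : (f d c)^[k + 1] = (f d c)^[k] ∘ f d c := Function.iterate_succ _ _
    have h3 : HasDerivAt (f d c) 0 0 := by
      have := (hasDerivAt_pow d (0 : ℂ)).add_const c
      rw [zero_pow (by omega), mul_zero] at this
      exact this
    have h4 : DifferentiableAt ℂ ((f d c)^[k]) (f d c 0) :=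
      Pool.Agent.N772.PC.diff_fc d k c (f d c 0)
    rw [h2, (h4.hasDerivAt.comp 0 h3).deriv, mul_zero]
  rw [h1, norm_zero]
  exact one_pos

/-- near a parameter with a Lyapunov exponent -/
theorem near {d : ℕ} (hd : 2 ≤ d) {χ : ℝ} {c₀ : ℂ} (h : Pool.Agent.Y298.CA.Lyap d χ c₀) {ε : ℝ}
    (hε : 0 < ε) : ∃ δ : ℝ, 0 < δ ∧ ∀ᶠ n : ℕ in atTop, ∀ c ∈ centres d n,
      ‖c - c₀‖ ≤ Real.exp (-((χ - δ) * n)) → Hairy d χ ε n c := by
  have hχ := h.1
  have hdR : (2 : ℝ) ≤ d := by exact_mod_cast hd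
  have hd1 : (0 : ℝ) < (d : ℝ) - 1 := by linarith
  have hY : 0 < χ / (d - 1) := by positivity
  -- finitely many points
  obtain ⟨t, htS, htf, htc⟩ : ∃ t : Set ℂ, t ⊆ closedBall 0 (1 / ε) ∩ (multibrotSet d)ᶜ ∧
      t.Finite ∧ closedBall 0 (1 / ε) ∩ (multibrotSet d)ᶜ ⊆ ⋃ y ∈ t, ball y (ε / 2) := by
    have h1 : TotallyBounded (closedBall (0 : ℂ) (1 / ε) ∩ (multibrotSet d)ᶜ) :=
      (isCompact_closedBall 0 (1 / ε)).totallyBounded.subset inter_subset_left
    obtain ⟨t, h2, h3, h4⟩ := h1.exists_subset (Metric.dist_mem_uniformity (half_pos hε))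
    exact ⟨t, h2, h3, h4⟩
  choose! D hD hloc using fun (y : ℂ) (hy : y ∉ multibrotSet d) =>
    hair_local hd h hy (half_pos hε)
  obtain ⟨δ₀, hδ₀, hδt⟩ : ∃ δ₀ : ℝ, 0 < δ₀ ∧ ∀ y ∈ t, δ₀ ≤ D y := by
    rcases t.eq_empty_or_nonempty with h0 | h0
    · exact ⟨1, one_pos, by simp [h0]⟩
    · obtain ⟨y, hy, hmin⟩ := htf.exists_minimalFor D t h0
      refine ⟨D y, hD y (htS hy).2, fun z hz => ?_⟩
      rcases le_total (D y) (D z) with h1 | h1
      · exact h1
      · exact hmin hz h1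
  obtain ⟨ε₁, hε₁⟩ : ∃ ε₁ : ℝ, ε₁ = min (δ₀ / 4) (min (ε / 2) (χ / (d - 1) / 2)) := ⟨_, rfl⟩
  have h1 : 0 < ε₁ := by rw [hε₁]; positivity
  have h2 : ε₁ ≤ ε / 2 := by rw [hε₁]; exact (min_le_right _ _).trans (min_le_left _ _)
  have h3 : ε₁ ≤ χ / (d - 1) / 2 := by
    rw [hε₁]; exact (min_le_right _ _).trans (min_le_right _ _)
  have h4 : ε₁ ≤ δ₀ / 4 := by rw [hε₁]; exact min_le_left _ _
  obtain ⟨δ, hδ, H⟩ := uni_near hd h h1
  refine ⟨min δ δ₀, lt_min hδ hδ₀, ?_⟩
  have hall : ∀ᶠ n : ℕ in atTop, ∀ y ∈ t, ∀ c l m : ℂ, l ≠ 0 → m ≠ 0 →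
      ‖c - c₀‖ ≤ Real.exp (-((χ - D y) * n)) →
        ‖l‖ ≤ Real.exp (-((χ * d / (d - 1) - D y / 4) * n)) →
        Real.exp (-((χ / (d - 1) + D y / 4) * n)) ≤ ‖m‖ →
        ‖m‖ ≤ Real.exp (-((χ / (d - 1) - D y / 4) * n)) →
        Un d n c l m ((χ / (d - 1) - D y / 4) * n) →
        ∃ κ : ℂ, ‖κ - y‖ < ε / 2 ∧ ∃ N : ℕ, Pool.Agent.H712R2.P d (N + 1) (c + l * κ) = 0 := by
    rw [Filter.eventually_all_finite htf]
    exact fun y hy => hloc y (htS hy).2
  filter_upwards [H, PerfectCopies.consequences hd hχ hε (by linarith : ε₁ < ε) (by linarith),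
    eventually_ge_atTop 1, hall] with n hn1 hn2 hn hn3 c hc hcc
  have hn0 : (0 : ℝ) < n := by exact_mod_cast hn
  have hexp : ∀ {a b : ℝ}, a ≤ b → Real.exp (a * n) ≤ Real.exp (b * n) := by
    intro a b hab
    gcongr
  have hexp' : ∀ {a b : ℝ}, b ≤ a → Real.exp (-(a * n)) ≤ Real.exp (-(b * n)) := by
    intro a b hab
    gcongr
  have hP : Pool.Agent.H712R2.P d n c = 0 := Pool.Agent.N896.MB.per_zero hc
  obtain ⟨l, m, hl, hm, a1, a2, ⟨a3, a4⟩, ⟨a5, a6⟩, hU⟩ := hn1 c hP
    (hcc.trans (hexp' (by linarith [min_le_left δ δ₀])))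
  obtain ⟨-, -, ⟨-, b1, b2, -⟩, -, -⟩ := hn2 c l m hl hm hP hU
  suffices hsup : ∀ κ₀ : ℂ, ‖κ₀‖ ≤ 1 / ε → κ₀ ∉ multibrotSet d →
      ∃ κ : ℂ, ‖κ - κ₀‖ < ε ∧ c + l * κ ∈ superattracting d by
    refine ⟨l, m, ⟨hl, hm, a1, a2, ?_, ?_⟩, b1, b2, hsup, fun κ₀ hκ₀ hκM => ?_⟩
    · exact (PerfectCopies.log_near' hn0 a3 a4).trans (by linarith)
    · exact (PerfectCopies.log_near' hn0 a5 a6).trans (by linarith)
    · by_cases h5 : κ₀ ∈ multibrotSet d
      · have h6 : κ₀ ∈ closure (hyperbolic d) := by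
          by_contra h7
          exact hκM ⟨h5, h7⟩
        obtain ⟨κ, ⟨-, h7⟩, h8⟩ := mem_thickening_iff.1 (b2 h6)
        rw [dist_comm, dist_eq_norm] at h8
        exact ⟨κ, h8, h7⟩
      · obtain ⟨κ, h6, h7⟩ := hsup κ₀ hκ₀ h5
        exact ⟨κ, h6, superattracting_sub hd h7⟩
  intro κ₀ hκ₀ hκM
  · obtain ⟨y, hy, hyκ⟩ := mem_iUnion₂.1 (htc ⟨by rwa [mem_closedBall_zero_iff], hκM⟩)
    have h5 := hδt y hy
    obtain ⟨κ, h6, N, h7⟩ := hn3 y hy c l m hl hm
      (hcc.trans (hexp' (by linarith [min_le_right δ δ₀])))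
      (a4.trans (hexp' (by linarith))) (le_trans (hexp' (by linarith)) a5)
      (a6.trans (hexp' (by linarith))) (Un_mono hU (by gcongr; linarith))
    refine ⟨κ, ?_, N + 1, Nat.succ_pos N, h7⟩
    rw [mem_ball, dist_eq_norm] at hyκ
    have h8 : κ - κ₀ = (κ - y) - (κ₀ - y) := by ring
    rw [h8]
    refine (norm_sub_le _ _).trans_lt ?_
    linarith

theorem result (d : ℕ) (hd : 2 ≤ d) :
    -- most small copies are hairy
    (∀ ε : ℝ, 0 < ε → Tendsto (fun n : ℕ =>
      ({c | c ∈ centres d n ∧ Hairy d (Real.log d) ε n c}.ncard : ℝ) / (centres d n).ncard)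
        atTop (𝓝 1)) ∧
    -- all small copies near the parameters `c₀` with a Lyapunov exponent `χ > 0` are hairy
    ∀ (χ : ℝ) (c₀ : ℂ), 0 < χ → c₀ ∈ multibrotSet d →
      Tendsto (fun n : ℕ => Real.log ‖deriv ((f d c₀)^[n]) c₀‖ / n) atTop (𝓝 χ) →
      ∀ ε : ℝ, 0 < ε → ∃ δ : ℝ, 0 < δ ∧ ∀ᶠ n : ℕ in atTop, ∀ c ∈ centres d n,
        ‖c - c₀‖ ≤ Real.exp (-((χ - δ) * n)) → Hairy d χ ε n c := by
  obtain ⟨β, hβ⟩ := Pool.Agent.H713R2.exists_beta (d := d) hd
  have hψ := Pool.Agent.H713R2.exteriorMap_of_beta hβ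
  refine ⟨?_, ?_⟩
  · intro ε hε
    apply most_tendsto hd hψ (fun n c => Hairy d (Real.log d) ε n c)
    filter_upwards [ae_lyap hd hψ] with θ hθ
    exact near hd hθ hε
  · intro χ c₀ hχ hc₀ hlim ε hε
    exact near hd ⟨hχ, hc₀, hlim⟩ hε

end Pool.Agent.Results.MP_c35c17_an.HairyCopies
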