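import Mathlib
import Pool.Prelude.Def_F_c31e40fa
import Pool.Agent.H206.RemR
import Pool.Agent.H206.RemZ
import Pool.Graph.R_seed8.Results.MP_c35c17_an.HigherPeriodProportion

/-!
# The local proportion of the hyperbolic parameters is at least the global one

Let `M` be the Multibrot set of degree `d ≥ 2`, let `H ⊆ M` be the set of its hyperbolic parameters
(those with an attracting cycle) and let `θ = area (M \ H) / area M` be the proportion of the other
ones. Let `c₀` be a point of `M` at which the critical value has a Lyapunov exponent `χ > 0`; almost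
every external ray of `M` lands at such a point, with `χ = log d`, and all parameters with a strictly
preperiodic critical point are of this kind.

**Theorem.** For every `ε > 0` the following is true for the discs of centre `c₀` and radius
`r = exp (-t)`, for all `t > 0` outside of a set of density zero:

* the area of `M \ H` in the disc is at most `θ + ε` times the area of `M` in the disc;
* up to the proportion `ε` of its area, `M` is in the disc a union of small copies of `M`: there are
  finitely many superattracting parameters `c` with explicit scales `l c`, for which the discs of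
  centre `c` and radius `|l c| / ε` are disjoint, such that the points of `M` in the disc at distance
  at least `ε |l c|` from `c + l c M` for all these `c` have area at most `ε` times the area of `M` in
  the disc, and `c + l c κ` is hyperbolic if the disc of centre `κ` and radius `ε` is in `H`.

Moreover `θ ≤ C / d` with an absolute constant `C`, `θ ≤ 1 / 2` in every degree, and `θ ≤ 0.443` for
the Mandelbrot set. So at harmonic-almost every point of the boundary and at almost all scales, in the
sense of the logarithmic density, the hyperbolic parameters have in `M` at least their global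
proportion, up to `ε`; this is `1 - O (1 / d)`, at least one half, and at least `0.557` if `d = 2`.

Method. At time `k` the disc of radius `r` about `c₀` is mapped by `c ↦ f_c ^ k (c)` almost affinely
to a disc of definite size, if the sum of the quotients of the derivatives `|(f ^ j)'(c₀)|` and the
`|f ^ j (c₀)|` over `j < k` is at most `b / r`. The area inequality for slow curves of parameters of
the library (`Y298.CA`) is extended to this condition, and with a remainder: all but a small part of
the orbits which stay bounded enter a tiny disc about the critical point before a bounded time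
(`RemA`, ..., `RemG`); so all but a small part of `M` in the disc is near superattracting parameters
of periods `k + 1, ..., k + N`. Around these the area outside of the copies is small (`ThinA`, ...,
`ThinI`). A covering lemma of Vitali gives disjoint discs. The area of `M` in the disc is not small
compared with the remainder, because preimages of the critical point are uniformly dense along the
critical orbit (`RemJ`). Close returns of the critical orbit are rare, and this bounds the density of
the scales for which there is no such time `k` (`RemP`).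
-/

set_option autoImplicit false

open MeasureTheory Filter Metric Topology Set

namespace Pool.Agent.Results.MP_c35c17_an.LocalProportion

open N62a1eb23
open Pool.Agent.H713R2 (IsExteriorMap)

/-- The polynomial `z ^ d + c`. -/
def f (d : ℕ) (c : ℂ) : ℂ → ℂ := fun z => z ^ d + c

/-- The critical orbit as a function of the parameter. -/
def crit (d n : ℕ) (c : ℂ) : ℂ := (f d c)^[n] 0

/-- The parameters with attracting cycles. -/
def hyperbolic (d : ℕ) : Set ℂ := {c | ∃ m z, IsAttractingCycle (f d c) m z}

/-- `c₀` is in the Multibrot set and the critical value `c₀` has the Lyapunov exponent `χ > 0`. -/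
def HasLyapunov (d : ℕ) (χ : ℝ) (c₀ : ℂ) : Prop :=
  0 < χ ∧ c₀ ∈ multibrotSet d ∧
    Tendsto (fun n : ℕ => Real.log ‖deriv ((f d c₀)^[n]) c₀‖ / n) atTop (𝓝 χ)

/-- The area of the part of `A` in the disc of centre `c` and radius `r`. -/
noncomputable def area (A : Set ℂ) (c : ℂ) (r : ℝ) : ℝ := (volume (A ∩ closedBall c r)).toReal

/-- The proportion of the non-hyperbolic parameters in the Multibrot set. -/
noncomputable def proportion (d : ℕ) : ℝ :=
  (volume (multibrotSet d \ hyperbolic d)).toReal / (volume (multibrotSet d)).toReal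

/-- `c` is superattracting of an exact period `n`, and `l` is the scale of the small copy of centre
`c`, given by the derivatives of the critical orbit. -/
def IsScale (d : ℕ) (c l : ℂ) : Prop :=
  ∃ n : ℕ, 0 < n ∧ Function.minimalPeriod (f d c) 0 = n ∧
    ∃ m : ℂ, m ≠ 0 ∧ m ^ (d - 1) * deriv ((f d c)^[n - 1]) c = 1 ∧ l ≠ 0 ∧
      l * deriv (crit d n) c = m

/-- Up to the proportion `ε` of its area, the part of the Multibrot set in the disc of centre `c₀`
and radius `r` is a union of small copies, surrounded by large disjoint discs. -/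
def Filled (d : ℕ) (ε : ℝ) (c₀ : ℂ) (r : ℝ) : Prop :=
  ∃ (u : Finset ℂ) (l : ℂ → ℂ),
    (∀ c ∈ u, IsScale d c (l c) ∧ closedBall c (‖l c‖ / ε) ⊆ closedBall c₀ ((1 + ε) * r) ∧
      ∀ κ : ℂ, ball κ ε ⊆ hyperbolic d → c + l c * κ ∈ hyperbolic d) ∧
    (∀ c ∈ u, ∀ c' ∈ u, c ≠ c' →
      Disjoint (closedBall c (‖l c‖ / ε)) (closedBall c' (‖l c'‖ / ε))) ∧
    area {b | b ∈ multibrotSet d ∧ ∀ c ∈ u, ∀ κ ∈ multibrotSet d,
      ε * ‖l c‖ ≤ ‖b - (c + l c * κ)‖} c₀ r ≤ ε * area (multibrotSet d) c₀ r

/-- `Q r` is true for the radii `r = exp (-t)`, for all `t > 0` outside of a set of density zero. -/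
def AlmostAllScales (Q : ℝ → Prop) : Prop :=
  Tendsto (fun T : ℝ => (volume {t : ℝ | t ∈ Icc 0 T ∧ ¬ Q (Real.exp (-t))}).toReal / T) atTop (𝓝 0)

/-- The local structure and the local proportion at `c₀`. -/
def Local (d : ℕ) (c₀ : ℂ) : Prop :=
  ∀ ε : ℝ, 0 < ε → AlmostAllScales fun r => Filled d ε c₀ r ∧
    area (multibrotSet d \ hyperbolic d) c₀ r ≤ (proportion d + ε) * area (multibrotSet d) c₀ r

open Pool.Agent.H206.Rem
open Pool.Agent.H712R2 (P fc)

/-- the period is exact -/
theorem exact_period {d : ℕ} (hd : 2 ≤ d) {c : ℂ} {p : ℕ} (hp : 0 < p) (hP : P d p c = 0)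
    (hder : deriv ((fc d c)^[p - 1]) c ≠ 0) : Function.minimalPeriod (f d c) 0 = p := by
  have hper : Function.IsPeriodicPt (f d c) p 0 := hP
  have hpos := hper.minimalPeriod_pos hp
  have hle := hper.minimalPeriod_le hp
  obtain ⟨q, hq⟩ : ∃ q, q = Function.minimalPeriod (f d c) 0 := ⟨_, rfl⟩
  rw [← hq] at hpos hle ⊢
  by_contra hne
  have hlt : q < p := lt_of_le_of_ne hle hne
  have hPq : (f d c)^[q] 0 = 0 := by
    rw [hq]
    exact Function.isPeriodicPt_minimalPeriod (f d c) 0
  apply hder
  have hz : Pool.Agent.Y298.SH.CD.zz d c (q - 1) = 0 := by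
    obtain ⟨j, rfl⟩ : ∃ j, q = j + 1 := ⟨q - 1, by omega⟩
    rw [Function.iterate_succ_apply] at hPq
    have h0 : f d c 0 = c := by
      unfold f
      rw [zero_pow (by omega), zero_add]
    rw [h0] at hPq
    exact hPq
  have h1 : Pool.Agent.Y298.SH.CD.Pd d c (q - 1 + 1) = 0 := by
    rw [Pool.Agent.Y298.SH.CD.Pd_succ, hz, norm_zero, zero_pow (by omega)]
    ring
  have h2 : Pool.Agent.Y298.SH.CD.Pd d c (p - 1) = 0 := by
    have e : p - 1 = (p - 1 - q) + (q - 1 + 1) := by omega
    rw [e, Pool.Agent.Y298.SH.CD.Pd_add, h1, mul_zero]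
  exact norm_eq_zero.1 h2

theorem thet_eq {d : ℕ} (hd : 2 ≤ d) : thet d = proportion d := by
  have h1 := area_split hd (B := univ) MeasurableSet.univ
  rw [inter_univ, inter_univ, inter_univ] at h1
  unfold thet proportion
  have h2 : volume.real (multibrotSet d) - volume.real (HH d) =
      volume.real (multibrotSet d \ HH d) := by linarith
  rw [h2]
  rfl

theorem local_of {d : ℕ} (hd : 2 ≤ d) {χ : ℝ} {c₀ : ℂ} (h : HasLyapunov d χ c₀) : Local d c₀ := by
  intro ε hε
  have hL : Pool.Agent.Y298.CA.Lyap d χ c₀ := h
  have key : ∀ r : ℝ, Pool.Agent.H206.Rem.Fin d ε c₀ r → Filled d ε c₀ r ∧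
      area (multibrotSet d \ hyperbolic d) c₀ r ≤
        (proportion d + ε) * area (multibrotSet d) c₀ r := by
    rintro r ⟨⟨u, l, h1, h2, h3⟩, h4⟩
    rw [thet_eq hd] at h4
    refine ⟨⟨u, l, fun c hc => ?_, fun c hc c' hc' hne => h2 hc hc' hne, ?_⟩, h4⟩
    · obtain ⟨⟨p, m, a1, a2, a3, a4, a5⟩, a6, a7, a8⟩ := h1 c hc
      refine ⟨⟨p, a1, exact_period hd a1 a3 ?_, m, a2, a4, a6, a5⟩, a7, a8⟩
      intro h0
      rw [h0, mul_zero] at a4
      exact zero_ne_one a4
    · have e : {b | b ∈ multibrotSet d ∧ ∀ c ∈ u, ∀ κ ∈ multibrotSet d,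
          ε * ‖l c‖ ≤ ‖b - (c + l c * κ)‖} ∩ closedBall c₀ r =
          {b | b ∈ closedBall c₀ r ∧ b ∈ multibrotSet d ∧ ∀ c ∈ u, ∀ κ ∈ multibrotSet d,
            ε * ‖l c‖ ≤ ‖b - (c + l c * κ)‖} := by
        ext b
        simp only [mem_inter_iff, mem_ofPred_eq]
        tauto
      unfold area
      rw [e]
      exact h3
  unfold AlmostAllScales
  rw [Metric.tendsto_atTop']
  intro η hη
  obtain ⟨T₀, hT₀⟩ := eventually_atTop.1 (fin_density hd hL hε (half_pos hη))
  refine ⟨max T₀ 1, fun T hT => ?_⟩
  have hT1 : T₀ ≤ T := (le_max_left _ _).trans hT.le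
  have hT0 : 0 < T := lt_of_lt_of_le one_pos ((le_max_right _ _).trans hT.le)
  have h5 : (volume {t : ℝ | t ∈ Icc 0 T ∧ ¬ (Filled d ε c₀ (Real.exp (-t)) ∧
      area (multibrotSet d \ hyperbolic d) c₀ (Real.exp (-t)) ≤
        (proportion d + ε) * area (multibrotSet d) c₀ (Real.exp (-t)))}).toReal ≤ η / 2 * T := by
    refine (ENNReal.toReal_mono ENNReal.ofReal_ne_top ((measure_mono ?_).trans
      (hT₀ T hT1))).trans (le_of_eq (ENNReal.toReal_ofReal (by positivity)))
    rintro t ⟨ht, hn⟩
    exact ⟨ht, fun hF => hn (key _ hF)⟩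
  rw [Real.dist_eq, sub_zero, abs_of_nonneg (by positivity), div_lt_iff₀ hT0]
  have h6 : η / 2 * T < η * T := by nlinarith
  exact h5.trans_lt h6

/-- the area of the Multibrot sets is bounded from below -/
theorem area_low {d : ℕ} (hd : 2 ≤ d) : Real.pi / 16 ≤ (volume (multibrotSet d)).toReal := by
  have h1 : ball (0 : ℂ) (1 / 4) ⊆ multibrotSet d := by
    intro c hc
    rw [mem_ball_zero_iff] at hc
    rw [Pool.Agent.H712R2.mem_multibrot_iff hd]
    have h2 : ∀ k, ‖P d k c‖ ≤ 1 / 2 := by
      intro k
      induction k with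
      | zero =>
        have : P d 0 c = 0 := rfl
        rw [this, norm_zero]
        norm_num
      | succ k ih =>
        rw [Pool.Agent.H712R2.P_succ]
        refine (norm_add_le _ _).trans ?_
        rw [norm_pow]
        have h3 : ‖P d k c‖ ^ d ≤ ‖P d k c‖ ^ 2 :=
          pow_le_pow_of_le_one (norm_nonneg _) (by linarith) hd
        have h4 : ‖P d k c‖ ^ 2 ≤ (1 / 2) ^ 2 := by gcongr
        norm_num at h4
        linarith
    intro k
    linarith [h2 k]
  have h2 := ENNReal.toReal_mono (multi_fin hd) (measure_mono h1 (μ := volume))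
  rw [Complex.volume_ball] at h2
  refine le_trans (le_of_eq ?_) h2
  rw [ENNReal.toReal_mul, ENNReal.toReal_pow, ENNReal.toReal_ofReal (by norm_num)]
  simp only [ENNReal.coe_toReal, NNReal.coe_real_pi]
  ring

/-- the global proportion -/
theorem proportion_le : ∃ C : ℝ, ∀ d : ℕ, 2 ≤ d → proportion d ≤ C / d := by
  obtain ⟨C, hC, H⟩ := Pool.Agent.Results.MP_c35c17_an.HigherPeriodProportion.hFin3
  refine ⟨C / (Real.pi / 16), fun d hd => ?_⟩
  have hd0 : (0 : ℝ) < d := by exact_mod_cast (by omega : 0 < d)
  have h1 : volume (multibrotSet d \ hyperbolic d) ≤ ENNReal.ofReal (C / d) := H d hd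
  have h2 := ENNReal.toReal_mono ENNReal.ofReal_ne_top h1
  rw [ENNReal.toReal_ofReal (by positivity)] at h2
  have h3 := area_low hd
  have hpi := Real.pi_pos
  unfold proportion
  calc (volume (multibrotSet d \ hyperbolic d)).toReal / (volume (multibrotSet d)).toReal
      ≤ (C / d) / (Real.pi / 16) := by gcongr
    _ = _ := by field_simp

/-- **Theorem.** (1) Let `d ≥ 2` and let `c₀` be a parameter with a positive Lyapunov exponent. For
every `ε > 0`, at almost all scales, the Multibrot set near `c₀` is filled with small copies up to the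
proportion `ε` of its area, and the proportion of the non-hyperbolic parameters is at most the global
proportion plus `ε`. (2) For almost every angle the external ray of the Multibrot set lands at such a
parameter. (3) The global proportion of the non-hyperbolic parameters is at most `C / d`, at most
`1 / 2`, and at most `0.443` for the Mandelbrot set. -/
theorem result :
    (∀ d : ℕ, 2 ≤ d → ∀ (χ : ℝ) (c₀ : ℂ), HasLyapunov d χ c₀ → Local d c₀) ∧
    (∀ d : ℕ, 2 ≤ d → (∃ ψ : ℂ → ℂ, IsExteriorMap (multibrotSet d) ψ) ∧
      ∀ ψ : ℂ → ℂ, IsExteriorMap (multibrotSet d) ψ → ∀ᵐ θ : ℝ, ∃ c₀ ∈ frontier (multibrotSet d),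
        Tendsto (fun r : ℝ => ψ (r * Complex.exp (θ * Complex.I))) (𝓝[>] 1) (𝓝 c₀) ∧
        HasLyapunov d (Real.log d) c₀ ∧ Local d c₀) ∧
    (∃ C : ℝ, ∀ d : ℕ, 2 ≤ d → proportion d ≤ C / d) ∧
    (∀ d : ℕ, 2 ≤ d → proportion d ≤ 1 / 2) ∧ proportion 2 ≤ 443 / 1000 := by
  refine ⟨fun d hd χ c₀ h => local_of hd h, fun d hd => ?_, proportion_le,
    fun d hd => (thet_eq hd).symm.trans_le (prop_multi hd),
    (thet_eq le_rfl).symm.trans_le prop_mandel⟩
  obtain ⟨β, hβ⟩ := Pool.Agent.H713R2.exists_beta (d := d) hd
  refine ⟨⟨_, Pool.Agent.H713R2.exteriorMap_of_beta hβ⟩, ?_⟩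
  intro ψ hψ
  filter_upwards [Pool.Agent.Y272.TY.ae_neg' (Pool.Agent.Y272.TY.typical_all hd hβ)] with θ hθ
  obtain ⟨c₀, A, R, h⟩ := hθ
  have hL : HasLyapunov d (Real.log d) c₀ := Pool.Agent.Y298.CA.lyap_of_typ hd hβ h
  exact ⟨c₀, h.frontier hd hβ, h.tendsto_psi hβ hψ, hL, local_of hd hL⟩

end Pool.Agent.Results.MP_c35c17_an.LocalProportion
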