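import Mathlib
import Pool.Prelude.Def_F_c31e40fa
import Pool.Graph.R_pool_sql_team_seeded_63374d34.Results.MP_fcb70f_an.PerfectCopies
import Pool.Graph.R_pool_sql_team_seeded_63374d34.N228.DQ.Hyp
import Pool.Agent.H206.ThinI
import Pool.Agent.H206.RemZ

/-!
# The proportion of the hyperbolic parameters near most small copies of the Multibrot sets

Let `M` be the Multibrot set of degree `d ≥ 2` (the parameters `c` for which the orbit of `0` under
`f_c = z ^ d + c` is bounded) and `H ⊆ M` the set of the hyperbolic parameters (those with an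
attracting cycle). Every superattracting parameter `c` of exact period `n` is the centre of a small
copy of `M`; there are about `d ^ (n - 1)` of them.

**Theorem.** For most superattracting parameters `c` of exact period `n` (their proportion converges
to one), and for all of them close to a parameter with a positive Lyapunov exponent, there is a
scale `l` (explicit in terms of derivatives of `f ^ n (0)`), such that in the large disc of centre
`c` and radius `|l| / ε`

* the part of `M` at distance at least `ε |l|` from `c + l M` has area at most `ε |l| ^ 2`;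
* the area of `M` is at most `(area M + ε) |l| ^ 2`;
* the area of `H` is at least `(area H - ε) |l| ^ 2`;
* so the proportion of the hyperbolic parameters in `M` is at least
  `(area H - ε) / (area M + ε)`; here `area H / area M ≥ 1 / 2`, and `≥ 0.557` if `d = 2`.

So near most small copies the hyperbolic parameters have in `M` at least the same proportion as in
the whole set `M`, up to `ε`, in a disc which is much larger than the small copy and meets infinitely
many other pieces of `M` (they are even `ε |l|`-dense in it: this is the result `HairyCopies` on the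
same problem). The magnified sets `(M - c) / l` converge to `M` in area if `H` has full area in `M`.
-/

set_option autoImplicit false

open MeasureTheory Filter Metric Topology Set

namespace Pool.Agent.Results.MP_c35c17_an.ThinCopies

open N62a1eb23

/-- The polynomial `z ^ d + c`. -/
def f (d : ℕ) (c : ℂ) : ℂ → ℂ := fun z => z ^ d + c

/-- The superattracting parameters of exact period `n`: the critical point `0` of `z ^ d + c` is
periodic with least period `n`. -/
def centres (d n : ℕ) : Set ℂ := {c | Function.minimalPeriod (f d c) 0 = n}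

/-- The critical orbit as a function of the parameter. -/
def crit (d n : ℕ) (c : ℂ) : ℂ := (f d c)^[n] 0

/-- The parameters with attracting cycles. -/
def hyperbolic (d : ℕ) : Set ℂ := {c | ∃ m z, IsAttractingCycle (f d c) m z}

/-- The scales: `l` for the parameters and `m` for the dynamics. They are explicit, and
`|l| = exp (- (χ d / (d - 1) ± ε) n)`, `|m| = exp (- (χ / (d - 1) ± ε) n)`. -/
def Scales (d n : ℕ) (c l m : ℂ) (χ ε : ℝ) : Prop :=
  l ≠ 0 ∧ m ≠ 0 ∧ m ^ (d - 1) * deriv ((f d c)^[n - 1]) c = 1 ∧ l * deriv (crit d n) c = m ∧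
    |-Real.log ‖l‖ / n - χ * d / (d - 1)| ≤ ε ∧ |-Real.log ‖m‖ / n - χ / (d - 1)| ≤ ε

/-- The area of the part of `A` in the disc of centre `c` and radius `r`. -/
noncomputable def area (A : Set ℂ) (c : ℂ) (r : ℝ) : ℝ := (volume (A ∩ closedBall c r)).toReal

/-- The small copy of centre `c` is thin, up to `ε`. -/
def Thin (d : ℕ) (χ ε : ℝ) (n : ℕ) (c : ℂ) : Prop :=
  ∃ l m : ℂ, Scales d n c l m χ ε ∧
    -- the area at distance at least `ε |l|` from `c + l M`
    area {b | b ∈ multibrotSet d ∧ ∀ κ ∈ multibrotSet d, ε * ‖l‖ ≤ ‖b - (c + l * κ)‖}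
      c (‖l‖ / ε) ≤ ε * ‖l‖ ^ 2 ∧
    -- the area of the Multibrot set
    area (multibrotSet d) c (‖l‖ / ε) ≤ ((volume (multibrotSet d)).toReal + ε) * ‖l‖ ^ 2 ∧
    -- the area of the hyperbolic parameters
    ((volume (hyperbolic d)).toReal - ε) * ‖l‖ ^ 2 ≤ area (hyperbolic d) c (‖l‖ / ε) ∧
    -- the proportion of the hyperbolic parameters
    ((volume (hyperbolic d)).toReal - ε) * area (multibrotSet d) c (‖l‖ / ε) ≤
      ((volume (multibrotSet d)).toReal + ε) * area (hyperbolic d) c (‖l‖ / ε)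

open Pool.Agent.N772.TC Pool.Agent.N772.PC Pool.Agent.H206.Hair Pool.Agent.H206.Thin
open Pool.Agent.Results.MP_fcb70f_an (PerfectCopies.consequences PerfectCopies.log_near')

/-- near a parameter with a Lyapunov exponent -/
theorem near {d : ℕ} (hd : 2 ≤ d) {χ : ℝ} {c₀ : ℂ} (h : Pool.Agent.Y298.CA.Lyap d χ c₀) {ε : ℝ}
    (hε : 0 < ε) (hε1 : ε ≤ 1 / 3) : ∃ δ : ℝ, 0 < δ ∧ ∀ᶠ n : ℕ in atTop, ∀ c ∈ centres d n,
      ‖c - c₀‖ ≤ Real.exp (-((χ - δ) * n)) → Thin d χ ε n c := by
  have hχ := h.1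
  have hdR : (2 : ℝ) ≤ d := by exact_mod_cast hd
  have hd1 : (0 : ℝ) < (d : ℝ) - 1 := by linarith
  have hY : 0 < χ / (d - 1) := by positivity
  have hMK := Pool.Agent.H712R2.isCompact_multibrot hd
  have hHsub : hyperbolic d ⊆ interior (multibrotSet d) := fun κ hκ =>
    Pool.Agent.R240.Alm.att_interior hd hκ
  have hM2 : multibrotSet d ⊆ closedBall 0 2 := by
    intro κ hκ
    have h2 := (Pool.Agent.H712R2.mem_multibrot_iff hd κ).1 hκ 1
    rwa [Pool.Agent.H712R2.P_one hd, ← dist_zero_right] at h2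
  have hHo : IsOpen (hyperbolic d) := Pool.Agent.N228.DQ.isOpen_hyp hd
  have hH2 : hyperbolic d ⊆ closedBall 0 2 := (hHsub.trans interior_subset).trans hM2
  obtain ⟨e₁, he₁, H₁⟩ := thick_vol hMK (half_pos hε)
  obtain ⟨e₂, he₂, H₂⟩ := inner_vol hHo hH2 hε
  obtain ⟨e, he⟩ : ∃ e : ℝ, e = min (min e₁ e₂) ε := ⟨_, rfl⟩
  have he0 : 0 < e := by rw [he]; positivity
  have hee₁ : e ≤ e₁ := by rw [he]; exact (min_le_left _ _).trans (min_le_left _ _)
  have hee₂ : e ≤ e₂ := by rw [he]; exact (min_le_left _ _).trans (min_le_right _ _)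
  have heε : e ≤ ε := by rw [he]; exact min_le_right _ _
  obtain ⟨δ₀, hδ₀, H₀⟩ := thin_k hd h he0 (show 0 < 1 / ε by positivity) (half_pos hε)
  obtain ⟨ε₁, hε₁⟩ : ∃ ε₁ : ℝ, ε₁ = min (δ₀ / 4) (min (e / 2) (χ / (d - 1) / 2)) := ⟨_, rfl⟩
  have h1 : 0 < ε₁ := by rw [hε₁]; positivity
  have h2 : ε₁ ≤ e / 2 := by rw [hε₁]; exact (min_le_right _ _).trans (min_le_left _ _)
  have h3 : ε₁ ≤ χ / (d - 1) / 2 := by
    rw [hε₁]; exact (min_le_right _ _).trans (min_le_right _ _)
  have h4 : ε₁ ≤ δ₀ / 4 := by rw [hε₁]; exact min_le_left _ _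
  obtain ⟨δ, hδ, H⟩ := uni_near hd h h1
  refine ⟨min δ δ₀, lt_min hδ hδ₀, ?_⟩
  filter_upwards [H, PerfectCopies.consequences hd hχ he0 (by linarith : ε₁ < e) (by linarith),
    eventually_ge_atTop 1, H₀] with n hn1 hn2 hn hn3 c hc hcc
  have hn0 : (0 : ℝ) < n := by exact_mod_cast hn
  have hexp' : ∀ {a b : ℝ}, b ≤ a → Real.exp (-(a * n)) ≤ Real.exp (-(b * n)) := by
    intro a b hab
    gcongr
  have hP : Pool.Agent.H712R2.P d n c = 0 := Pool.Agent.N896.MB.per_zero hc
  obtain ⟨l, m, hl, hm, a1, a2, ⟨a3, a4⟩, ⟨a5, a6⟩, hU⟩ := hn1 c hP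
    (hcc.trans (hexp' (by linarith [min_le_left δ δ₀])))
  obtain ⟨-, -, ⟨-, b1, -, b3⟩, -, -⟩ := hn2 c l m hl hm hP hU
  have hvol := hn3 c l m hl hm
    (hcc.trans (hexp' (by linarith [min_le_right δ δ₀])))
    (a4.trans (hexp' (by linarith))) (le_trans (hexp' (by linarith)) a5)
    (a6.trans (hexp' (by linarith))) (Un_mono hU (by gcongr))
  have hln : 0 < ‖l‖ := norm_pos_iff.2 hl
  have hdiv : ‖l‖ / ε = ‖l‖ * (1 / ε) := by ring
  -- areas in the rescaled picture
  have harea : ∀ A : Set ℂ, MeasurableSet A → area A c (‖l‖ / ε) =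
      ‖l‖ ^ 2 * (volume {κ : ℂ | ‖κ‖ ≤ 1 / ε ∧ c + l * κ ∈ A}).toReal := by
    intro A hA
    have hmeas : MeasurableSet {κ : ℂ | ‖κ‖ ≤ 1 / ε ∧ c + l * κ ∈ A} := by
      apply (measurableSet_le measurable_norm measurable_const).inter
      exact (measurable_const.add (measurable_const.mul measurable_id)) hA
    unfold area
    rw [hdiv, ← part_eq hl c A (1 / ε), vol_aff hl c hmeas, ENNReal.toReal_mul,
      ENNReal.toReal_ofReal (by positivity)]
  have hfin : ∀ A : Set ℂ, volume {κ : ℂ | ‖κ‖ ≤ 1 / ε ∧ c + l * κ ∈ A} ≠ ⊤ := by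
    intro A
    refine ne_top_of_le_ne_top (isCompact_closedBall (0 : ℂ) (1 / ε)).measure_lt_top.ne
      (measure_mono fun κ hκ => ?_)
    rw [mem_closedBall, dist_zero_right]
    exact hκ.1
  have hMfin : volume (multibrotSet d) ≠ ⊤ := hMK.measure_lt_top.ne
  -- the outer part
  have hout : (volume {κ : ℂ | ‖κ‖ ≤ 1 / ε ∧ κ ∉ thickening e (multibrotSet d) ∧
      c + l * κ ∈ multibrotSet d}) ≤ ENNReal.ofReal (ε / 2) := hvol
  -- the Multibrot set
  have hM1 : (volume {κ : ℂ | ‖κ‖ ≤ 1 / ε ∧ c + l * κ ∈ multibrotSet d}).toReal ≤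
      (volume (multibrotSet d)).toReal + ε := by
    have h5 : volume {κ : ℂ | ‖κ‖ ≤ 1 / ε ∧ c + l * κ ∈ multibrotSet d} ≤
        volume (multibrotSet d) + ENNReal.ofReal ε := by
      have h6 : {κ : ℂ | ‖κ‖ ≤ 1 / ε ∧ c + l * κ ∈ multibrotSet d} ⊆
          thickening e₁ (multibrotSet d) ∪ {κ : ℂ | ‖κ‖ ≤ 1 / ε ∧
            κ ∉ thickening e (multibrotSet d) ∧ c + l * κ ∈ multibrotSet d} := by
        intro κ hκ
        by_cases h7 : κ ∈ thickening e (multibrotSet d)
        · left
          exact thickening_mono hee₁ _ h7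
        · right
          exact ⟨hκ.1, h7, hκ.2⟩
      refine (measure_mono h6).trans ((measure_union_le _ _).trans ?_)
      refine (add_le_add H₁ hout).trans (le_of_eq ?_)
      rw [add_assoc, ← ENNReal.ofReal_add (by positivity) (by positivity), add_halves]
    have h7 := ENNReal.toReal_mono (ENNReal.add_ne_top.2 ⟨hMfin, ENNReal.ofReal_ne_top⟩) h5
    rwa [ENNReal.toReal_add hMfin ENNReal.ofReal_ne_top, ENNReal.toReal_ofReal hε.le] at h7
  -- the hyperbolic parameters
  have hH1 : (volume (hyperbolic d)).toReal - ε ≤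
      (volume {κ : ℂ | ‖κ‖ ≤ 1 / ε ∧ c + l * κ ∈ hyperbolic d}).toReal := by
    have h5 : volume (hyperbolic d) ≤
        volume {κ : ℂ | ‖κ‖ ≤ 1 / ε ∧ c + l * κ ∈ hyperbolic d} + ENNReal.ofReal ε := by
      refine (H₂ e hee₂).trans (add_le_add (measure_mono fun κ hκ => ?_) le_rfl)
      obtain ⟨h6, h7⟩ := b3 κ hκ
      refine ⟨?_, h7⟩
      obtain ⟨y, hy, hyκ⟩ := mem_thickening_iff.1 (b1 h6)
      have h8 := hM2 hy
      rw [mem_closedBall, dist_zero_right] at h8
      have h9 : ‖κ‖ ≤ ‖κ - y‖ + ‖y‖ := by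
        have := norm_add_le (κ - y) y
        rwa [sub_add_cancel] at this
      rw [dist_eq_norm] at hyκ
      have h10 : 3 ≤ 1 / ε := by
        rw [le_div_iff₀ hε]
        linarith
      linarith
    have h6 := ENNReal.toReal_mono (ENNReal.add_ne_top.2 ⟨hfin _, ENNReal.ofReal_ne_top⟩) h5
    rw [ENNReal.toReal_add (hfin _) ENNReal.ofReal_ne_top, ENNReal.toReal_ofReal hε.le] at h6
    linarith
  have hMm : MeasurableSet (multibrotSet d) := hMK.isClosed.measurableSet
  refine ⟨l, m, ⟨hl, hm, a1, a2, ?_, ?_⟩, ?_, ?_, ?_, ?_⟩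
  · exact (PerfectCopies.log_near' hn0 a3 a4).trans (by linarith)
  · exact (PerfectCopies.log_near' hn0 a5 a6).trans (by linarith)
  · have hcl : IsClosed {b : ℂ | b ∈ multibrotSet d ∧
        ∀ κ ∈ multibrotSet d, ε * ‖l‖ ≤ ‖b - (c + l * κ)‖} := by
      have h5 : {b : ℂ | b ∈ multibrotSet d ∧
          ∀ κ ∈ multibrotSet d, ε * ‖l‖ ≤ ‖b - (c + l * κ)‖} = multibrotSet d ∩
          ⋂ κ ∈ multibrotSet d, {b : ℂ | ε * ‖l‖ ≤ ‖b - (c + l * κ)‖} := by
        ext b
        simp only [mem_ofPred_eq, mem_inter_iff, mem_iInter]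
      rw [h5]
      refine hMK.isClosed.inter (isClosed_biInter fun κ _ => ?_)
      exact isClosed_le continuous_const (continuous_id.sub continuous_const).norm
    rw [harea _ hcl.measurableSet, mul_comm]
    gcongr
    refine (ENNReal.toReal_mono ENNReal.ofReal_ne_top ((measure_mono ?_).trans hout)).trans ?_
    · rintro κ ⟨h5, h6, h7⟩
      refine ⟨h5, fun h8 => ?_, h6⟩
      obtain ⟨y, hy, hyκ⟩ := mem_thickening_iff.1 h8
      have h9 := h7 y hy
      have h10 : c + l * κ - (c + l * y) = l * (κ - y) := by ring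
      rw [h10, norm_mul, mul_comm] at h9
      have h11 := le_of_mul_le_mul_left h9 hln
      rw [dist_eq_norm] at hyκ
      linarith
    · rw [ENNReal.toReal_ofReal (by positivity)]
      linarith
  · rw [harea _ hMm, mul_comm]
    gcongr
  · rw [harea _ hHo.measurableSet, mul_comm]
    gcongr
  · rw [harea _ hMm, harea _ hHo.measurableSet]
    obtain ⟨x, hx⟩ : ∃ x, x = (volume {κ : ℂ | ‖κ‖ ≤ 1 / ε ∧ c + l * κ ∈ multibrotSet d}).toReal :=
      ⟨_, rfl⟩
    obtain ⟨y, hy⟩ : ∃ y, y = (volume {κ : ℂ | ‖κ‖ ≤ 1 / ε ∧ c + l * κ ∈ hyperbolic d}).toReal :=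
      ⟨_, rfl⟩
    rw [← hx] at hM1 ⊢
    rw [← hy] at hH1 ⊢
    have hx0 : 0 ≤ x := by rw [hx]; exact ENNReal.toReal_nonneg
    have hy0 : 0 ≤ y := by rw [hy]; exact ENNReal.toReal_nonneg
    have h5 : 0 < ‖l‖ ^ 2 := by positivity
    have h6 : ((volume (hyperbolic d)).toReal - ε) * x ≤
        ((volume (multibrotSet d)).toReal + ε) * y := by
      calc ((volume (hyperbolic d)).toReal - ε) * x ≤ y * x := by gcongr
        _ = x * y := mul_comm _ _
        _ ≤ _ := by gcongr
    calc ((volume (hyperbolic d)).toReal - ε) * (‖l‖ ^ 2 * x) =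
          ‖l‖ ^ 2 * (((volume (hyperbolic d)).toReal - ε) * x) := by ring
      _ ≤ ‖l‖ ^ 2 * (((volume (multibrotSet d)).toReal + ε) * y) := by gcongr
      _ = _ := by ring

theorem result (d : ℕ) (hd : 2 ≤ d) :
    -- most small copies are thin
    (∀ ε : ℝ, 0 < ε → ε ≤ 1 / 3 → Tendsto (fun n : ℕ =>
      ({c | c ∈ centres d n ∧ Thin d (Real.log d) ε n c}.ncard : ℝ) / (centres d n).ncard)
        atTop (𝓝 1)) ∧
    -- all small copies near the parameters `c₀` with a Lyapunov exponent `χ > 0` are thin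
    (∀ (χ : ℝ) (c₀ : ℂ), 0 < χ → c₀ ∈ multibrotSet d →
      Tendsto (fun n : ℕ => Real.log ‖deriv ((f d c₀)^[n]) c₀‖ / n) atTop (𝓝 χ) →
      ∀ ε : ℝ, 0 < ε → ε ≤ 1 / 3 → ∃ δ : ℝ, 0 < δ ∧ ∀ᶠ n : ℕ in atTop, ∀ c ∈ centres d n,
        ‖c - c₀‖ ≤ Real.exp (-((χ - δ) * n)) → Thin d χ ε n c) ∧
    -- the global proportion of the hyperbolic parameters
    (volume (multibrotSet d)).toReal ≤ 2 * (volume (hyperbolic d)).toReal ∧
    557 * (volume (multibrotSet 2)).toReal ≤ 1000 * (volume (hyperbolic 2)).toReal := by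
  obtain ⟨β, hβ⟩ := Pool.Agent.H713R2.exists_beta (d := d) hd
  have hψ := Pool.Agent.H713R2.exteriorMap_of_beta hβ
  refine ⟨?_, ?_, ?_, ?_⟩
  · intro ε hε hε1
    apply most_tendsto hd hψ (fun n c => Thin d (Real.log d) ε n c)
    filter_upwards [ae_lyap hd hψ] with θ hθ
    exact near hd hθ hε hε1
  · intro χ c₀ hχ hc₀ hlim ε hε hε1
    exact near hd ⟨hχ, hc₀, hlim⟩ hε hε1
  · have h1 := Pool.Agent.H206.Rem.prop_multi hd
    rw [div_le_iff₀ (Pool.Agent.H206.Rem.multi_pos hd)] at h1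
    change (volume (multibrotSet d)).toReal - (volume (hyperbolic d)).toReal ≤
      1 / 2 * (volume (multibrotSet d)).toReal at h1
    linarith
  · have h1 := Pool.Agent.H206.Rem.prop_mandel
    rw [div_le_iff₀ (Pool.Agent.H206.Rem.multi_pos le_rfl)] at h1
    change (volume (multibrotSet 2)).toReal - (volume (hyperbolic 2)).toReal ≤
      443 / 1000 * (volume (multibrotSet 2)).toReal at h1
    linarith

end Pool.Agent.Results.MP_c35c17_an.ThinCopies
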